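import Pool.Agent.H95.RO.Df

/-!
# [H96 RO DF] MP_8923e7_nt, THEOREM R: the core property with frequencies

`CoreRF α e m`: for every `ε` there is `s` such that for all classes `ρ i` prime to `Q`, all points `y i` of the torus
(`i < m s`) and every `η > 0` some set `A` of positions which meets at least `(13/50 - e) m` of the `m` blocks (block of
`i : Fin (m * s)`: `i.divNat`) is realised, for some `c > 0` and arbitrarily large `X`, by at least `c X / log X` strings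
`p_j, …, p_(j+#A-1)` of consecutive primes `≤ X` at distance `≤ η log X` from `p_j`: `p_(j+i) ≡ ρ (A_i) (mod Q)` and
`α_l p_(j+i)` is within `ε` of `y (A_i) l` modulo `1`.
-/

set_option autoImplicit false

namespace Pool.Agent.H96.RO

open Finset Filter Pool.Agent.H95.RO

/-- the core property for rotations with frequencies -/
def CoreRF {t : ℕ} (α : Fin t → ℝ) (e : ℝ) (m : ℕ) : Prop :=
  ∀ ε : ℝ, 0 < ε → ∃ s : ℕ, 1 ≤ s ∧ ∀ Q : ℕ, 0 < Q →
    ∀ ρ : Fin (m * s) → ℕ, (∀ i, Nat.Coprime (ρ i) Q) → ∀ y : Fin (m * s) → Fin t → ℝ,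
      ∀ η : ℝ, 0 < η →
        ∃ (A : Finset (Fin (m * s))) (c : ℝ), 0 < c ∧
          (13 / 50 - e) * m ≤ ((A.image Fin.divNat).card : ℝ) ∧
          ∃ᶠ X : ℕ in atTop, c * (X / Real.log X) ≤
            ({j : ℕ | ∀ i : Fin A.card, Nat.nth Nat.Prime (j + i) ≤ X ∧
              (Nat.nth Nat.Prime (j + i) : ℝ) ≤ Nat.nth Nat.Prime j + η * Real.log X ∧
              Nat.nth Nat.Prime (j + i) ≡ ρ (A.orderEmbOfFin rfl i) [MOD Q] ∧
              ∀ l, nd (α l * Nat.nth Nat.Prime (j + i) - y (A.orderEmbOfFin rfl i) l) < ε}.ncard : ℝ)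

theorem coreRF_mono {t : ℕ} {α : Fin t → ℝ} {e e' : ℝ} {m : ℕ} (h : CoreRF α e m) (he : e ≤ e') :
    CoreRF α e' m := by
  intro ε hε
  obtain ⟨s, hs, h1⟩ := h ε hε
  refine ⟨s, hs, fun Q hQ ρ hρ y η hη => ?_⟩
  obtain ⟨A, c, hc, hA, hJ⟩ := h1 Q hQ ρ hρ y η hη
  refine ⟨A, c, hc, le_trans ?_ hA, hJ⟩
  exact mul_le_mul_of_nonneg_right (by linarith) (Nat.cast_nonneg m)

end Pool.Agent.H96.RO
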