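import Pool.Agent.H96.RO.Mq
import Pool.Agent.H96.RO.Df
import Pool.Agent.H96.WP.Fin

/-!
# [H96 RO FIN] MP_8923e7_nt, THEOREM R: the core property with frequencies
-/

set_option autoImplicit false

namespace Pool.Agent.H96.RO

open Finset Filter Pool.Agent.H21.MT Pool.Agent.H92.MM Pool.Agent.H61.UN Pool.Agent.H96.WP
  Pool.Agent.H95.RO

/-- the strings counted in `CoreRF` -/
def JX {t n : ℕ} (α : Fin t → ℝ) (Q : ℕ) (A : Finset (Fin n)) (ρ : Fin n → ℕ)
    (y : Fin n → Fin t → ℝ) (ε η : ℝ) (X : ℕ) : Set ℕ :=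
  {j : ℕ | ∀ i : Fin A.card, Nat.nth Nat.Prime (j + i) ≤ X ∧
    (Nat.nth Nat.Prime (j + i) : ℝ) ≤ Nat.nth Nat.Prime j + η * Real.log X ∧
    Nat.nth Nat.Prime (j + i) ≡ ρ (A.orderEmbOfFin rfl i) [MOD Q] ∧
    ∀ l, nd (α l * Nat.nth Nat.Prime (j + i) - y (A.orderEmbOfFin rfl i) l) < ε}

theorem jx_le {t n : ℕ} {α : Fin t → ℝ} {Q : ℕ} {A : Finset (Fin n)} {ρ : Fin n → ℕ}
    {y : Fin n → Fin t → ℝ} {ε η : ℝ} {X : ℕ} (hA : 0 < A.card) {j : ℕ}
    (hj : j ∈ JX α Q A ρ y ε η X) : j ≤ X := by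
  have h1 := (hj ⟨0, hA⟩).1
  have h2 : j ≤ Nat.nth Nat.Prime j :=
    (Nat.nth_strictMono Nat.infinite_setOfPred_prime).le_apply
  simp only [add_zero] at h1
  exact h2.trans h1

open Classical in
/-- from the good `N` to strings of consecutive primes -/
theorem to_rot {t : ℕ} (α : Fin t → ℝ) (m s Q R : ℕ) (hQR : Q ∣ R) (e d ε1 ε η : ℝ)
    (ρ ρ' : Fin (m * s) → ℕ) (hρ : ∀ i, ρ' i ≡ ρ i [MOD Q]) (y : Fin (m * s) → Fin t → ℝ)
    (hdε : d + ε1 ≤ ε) (L X : ℕ) (hLη : (L : ℝ) ≤ η * Real.log X)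
    (hpos : 0 < (13 / 50 - 2 * e) * m) (G : Finset ℕ)
    (hGne : G.Nonempty) (hG : ∀ N ∈ G, N + L < X ∧ GdR α m s R e d ε1 ρ' y L N) :
    ∃ A : Finset (Fin (m * s)), (13 / 50 - 2 * e) * m ≤ ((A.image Fin.divNat).card : ℝ) ∧
      G.card ≤ 2 ^ (m * s) * ((L + 1) * (JX α Q A ρ y ε η X).ncard) := by
  have h1 : ∀ N, ∃ (A : Finset (Fin (m * s))) (j : ℕ), N ∈ G →
      (13 / 50 - 2 * e) * m ≤ ((A.image Fin.divNat).card : ℝ) ∧
      N ≤ Nat.nth Nat.Prime j ∧ Nat.nth Nat.Prime j ≤ N + L ∧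
      j ∈ (range (X + 1)).filter (fun j => j ∈ JX α Q A ρ y ε η X) := by
    intro N
    by_cases hN : N ∈ G
    · obtain ⟨hNX, hRN, hNd, u, hu, hpc, hcl⟩ := hG N hN
      obtain ⟨⟨hu1, hu2, hu3⟩, hu4⟩ := mem_BXR.1 hu
      obtain ⟨A, hA⟩ : ∃ A : Finset (Fin (m * s)), ∀ i, i ∈ A ↔ (N + u i).Prime :=
        ⟨univ.filter (fun i => (N + u i).Prime), fun i => by simp⟩
      have hblk : pc (fun q : Fin m × Fin s => u (finProdFinEquiv q)) N ≤
          (A.image Fin.divNat).card := by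
        unfold pc
        refine card_le_card fun j hj => ?_
        rw [mem_filter] at hj
        obtain ⟨l, hl⟩ := hj.2
        rw [mem_image]
        refine ⟨finProdFinEquiv (j, l), (hA _).2 hl, ?_⟩
        have h2 := finProdFinEquiv.symm_apply_apply (j, l)
        have h3 : (finProdFinEquiv.symm (finProdFinEquiv (j, l))).1 = j := by rw [h2]
        exact h3
      have hblk' : (13 / 50 - 2 * e) * m ≤ ((A.image Fin.divNat).card : ℝ) := by
        refine hpc.trans ?_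
        exact_mod_cast hblk
      have hAne : 0 < A.card := by
        by_contra h0
        have h2 : A = ∅ := card_eq_zero.1 (by omega)
        rw [h2, image_empty, card_empty, Nat.cast_zero] at hblk'
        linarith
      obtain ⟨j, hj0, hj⟩ := consec N L u hu2 hu1 hcl A hA hAne
      have hj1 : Nat.nth Nat.Prime j = N + u (A.orderEmbOfFin rfl ⟨0, hAne⟩) := by
        have := hj ⟨0, hAne⟩
        simpa using this
      have hle : ∀ i, u i ≤ L := hu1
      refine ⟨A, j, fun _ => ⟨hblk', ?_, ?_, ?_⟩⟩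
      · rw [hj1]
        exact Nat.le_add_right _ _
      · rw [hj1]
        exact Nat.add_le_add_left (hle _) _
      · rw [mem_filter, mem_range]
        refine ⟨by omega, fun i => ?_⟩
        rw [hj i]
        have h4 := hle (A.orderEmbOfFin rfl i)
        refine ⟨by omega, ?_, ?_, fun l => ?_⟩
        · rw [hj1]
          push_cast
          have h5 : ((u (A.orderEmbOfFin rfl i) : ℕ) : ℝ) ≤ L := by exact_mod_cast h4
          have h6 : (0 : ℝ) ≤ (u (A.orderEmbOfFin rfl ⟨0, hAne⟩) : ℕ) := Nat.cast_nonneg _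
          linarith
        · have h5 : N ≡ 0 [MOD Q] := Nat.modEq_zero_iff_dvd.2 (hQR.trans hRN)
          have h6 : u (A.orderEmbOfFin rfl i) ≡ ρ (A.orderEmbOfFin rfl i) [MOD Q] :=
            ((hu3 _).of_dvd hQR).trans (hρ _)
          have h7 := h5.add h6
          rwa [zero_add] at h7
        · have h1 := hu4 (A.orderEmbOfFin rfl i) l
          have h2 := hNd l
          push_cast
          have h3 : α l * ((N : ℝ) + u (A.orderEmbOfFin rfl i)) - y (A.orderEmbOfFin rfl i) l =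
              α l * N + (α l * u (A.orderEmbOfFin rfl i) - y (A.orderEmbOfFin rfl i) l) := by ring
          rw [h3]
          have h4 := nd_add (α l * N) (α l * u (A.orderEmbOfFin rfl i) - y (A.orderEmbOfFin rfl i) l)
          linarith
    · exact ⟨∅, 0, fun h => absurd h hN⟩
  choose fA fj hf using h1
  -- pigeonhole over the sets `A`
  obtain ⟨A, hA, hAc⟩ : ∃ A ∈ G.image fA, G.card ≤ 2 ^ (m * s) * (G.filter (fun N => fA N = A)).card := by
    by_contra hcon
    push Not at hcon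
    have h2 : G.card = ∑ A ∈ G.image fA, (G.filter (fun N => fA N = A)).card :=
      card_eq_sum_card_fiberwise (fun N hN => mem_coe.2 (mem_image_of_mem fA hN))
    have h3 : ∑ A ∈ G.image fA, 2 ^ (m * s) * (G.filter (fun N => fA N = A)).card <
        ∑ _A ∈ G.image fA, G.card :=
      sum_lt_sum_of_nonempty (hGne.image _) hcon
    rw [← mul_sum, ← h2, sum_const, smul_eq_mul] at h3
    have h4 : (G.image fA).card ≤ 2 ^ (m * s) := by
      refine (card_le_univ _).trans ?_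
      rw [Fintype.card_finset, Fintype.card_fin]
    exact absurd h3 (not_lt.2 (Nat.mul_le_mul_right _ h4))
  obtain ⟨N0, hN0, hN0A⟩ := mem_image.1 hA
  have hblkA : (13 / 50 - 2 * e) * m ≤ ((A.image Fin.divNat).card : ℝ) := by
    rw [← hN0A]
    exact (hf N0 hN0).1
  have hAne : 0 < A.card := by
    by_contra h0
    have h2 : A = ∅ := card_eq_zero.1 (by omega)
    rw [h2, image_empty, card_empty, Nat.cast_zero] at hblkA
    linarith
  refine ⟨A, hblkA, hAc.trans (Nat.mul_le_mul_left _ ?_)⟩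
  -- at most `L + 1` of the `N` have the same `j`
  have h5 : (G.filter (fun N => fA N = A)).card ≤ (range (L + 1) ×ˢ ((range (X + 1)).filter
      (fun j => j ∈ JX α Q A ρ y ε η X))).card := by
    refine card_le_card_of_injOn (fun N => (Nat.nth Nat.Prime (fj N) - N, fj N)) ?_ ?_
    · intro N hN
      rw [mem_coe, mem_filter] at hN
      obtain ⟨h6, h7, h8, h9⟩ := hf N hN.1
      rw [hN.2] at h9
      rw [mem_coe, mem_product, mem_range]
      exact ⟨by show _ - _ < _; omega, h9⟩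
    · intro N hN N' hN' h
      rw [mem_coe, mem_filter] at hN hN'
      obtain ⟨-, h7, h8, -⟩ := hf N hN.1
      obtain ⟨-, h7', h8', -⟩ := hf N' hN'.1
      simp only [Prod.mk.injEq] at h
      obtain ⟨h9, h10⟩ := h
      rw [h10] at h9 h7 h8
      omega
  have h6 : ((range (X + 1)).filter (fun j => j ∈ JX α Q A ρ y ε η X)).card ≤
      (JX α Q A ρ y ε η X).ncard := by
    rw [← Set.ncard_coe_finset]
    refine Set.ncard_le_ncard ?_ ?_
    · intro j hj
      rw [mem_coe, mem_filter] at hj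
      exact hj.2
    · exact (Set.finite_Iic X).subset fun j hj => jx_le hAne hj
  rw [card_product, card_range] at h5
  exact h5.trans (Nat.mul_le_mul_left _ h6)

/-- **the core property with frequencies** -/
theorem coreRF_of {t : ℕ} (α : Fin t → ℝ) (hα : Ind α) (hsc : Scl α) (e : ℝ) (he : 0 < e) (m : ℕ)
    (hm : 1 ≤ m) : CoreRF α e m := by
  classical
  obtain ⟨e', he'd⟩ : ∃ e' : ℝ, e' = min (e / 2) (1 / 100) := ⟨_, rfl⟩
  have he' : 0 < e' := by rw [he'd]; positivity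
  have he'1 : e' ≤ 1 / 100 := by rw [he'd]; exact min_le_right _ _
  have he'2 : 2 * e' ≤ e := by
    have : e' ≤ e / 2 := by rw [he'd]; exact min_le_left _ _
    linarith
  refine coreRF_mono ?_ he'2
  intro ε hε
  obtain ⟨d, hd⟩ : ∃ d : ℝ, d = min (ε / 4) (1 / 4) := ⟨_, rfl⟩
  have hd0 : 0 < d := by rw [hd]; positivity
  have hd1 : d ≤ ε / 4 := by rw [hd]; exact min_le_left _ _
  have hd2 : d ≤ 1 / 4 := by rw [hd]; exact min_le_right _ _
  obtain ⟨s, w, Good, hs, hfr, hgc⟩ := good_rot α hα hsc d hd0 hd2 (ε / 2) (by positivity) e' he'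
    he'1 m hm
  refine ⟨s, hs, fun Q hQ ρ hρ y η hη => ?_⟩
  have hn0 : 0 < m * s := Nat.mul_pos (by omega) (by omega)
  have hmr : (1 : ℝ) ≤ m := by exact_mod_cast hm
  have hpos : 0 < (13 / 50 - 2 * e') * m := by
    apply mul_pos _ (by linarith)
    linarith
  obtain ⟨R, hRd⟩ : ∃ R, R = WR Q (primorial w) := ⟨_, rfl⟩
  have hR : 0 < R := by rw [hRd]; exact wr_pos hQ _
  have hRw : primorial w ∣ R := by rw [hRd]; exact primorial_dvd_wr Q w
  have hQR : Q ∣ R := by rw [hRd]; exact wr_dvd_R _ _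
  have hcl : ∀ i, ∃ r' : ℕ, r' ≡ ρ i [MOD Q] ∧ Nat.Coprime r' R := by
    intro i
    rw [hRd]
    exact exists_class Q _ (ρ i) (hρ i)
  choose ρ' hρ'1 hρ'2 using hcl
  obtain ⟨c, T, lam, L0, hc, hT, hlam, hL0, hev⟩ := hgc R hR hRw ρ' hρ'2 y
  have hT0 : 0 < T := by linarith
  obtain ⟨n, hn⟩ : ∃ n, n = m * s := ⟨_, rfl⟩
  obtain ⟨θ, hθ⟩ : ∃ θ : ℝ, θ = min (min lam 1) η := ⟨_, rfl⟩
  have hθ0 : 0 < θ := by rw [hθ]; positivity
  have hθ1 : θ ≤ lam := by rw [hθ]; exact (min_le_left _ _).trans (min_le_left _ _)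
  have hθ2 : θ ≤ 1 := by rw [hθ]; exact (min_le_left _ _).trans (min_le_right _ _)
  have hθ3 : θ ≤ η := by rw [hθ]; exact min_le_right _ _
  obtain ⟨c', hc'⟩ : ∃ c' : ℝ, c' = c * (θ / 2) ^ n / (2 ^ (n + 1) * (3 * T)) := ⟨_, rfl⟩
  have hc'0 : 0 < c' := by rw [hc']; positivity
  -- every large good scale
  have H : ∀ᶠ x : ℝ in atTop, Good x → ∃ A : Finset (Fin (m * s)),
      (13 / 50 - 2 * e') * m ≤ ((A.image Fin.divNat).card : ℝ) ∧
      c' * (((⌈2 * T * x⌉₊ : ℕ) : ℝ) / Real.log ((⌈2 * T * x⌉₊ : ℕ) : ℝ)) ≤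
        ((JX α Q A ρ y ε η ⌈2 * T * x⌉₊).ncard : ℝ) := by
    filter_upwards [hev, eventually_gt_atTop (1 : ℝ),
      Real.tendsto_log_atTop.eventually_ge_atTop ((L0 + 2) / θ)] with x hev hx1 hlx2 hgx
    have hx0 : 0 < x := by linarith
    have hlx : 0 < Real.log x := Real.log_pos hx1
    obtain ⟨X, hX⟩ : ∃ X : ℕ, X = ⌈2 * T * x⌉₊ := ⟨_, rfl⟩
    rw [← hX]
    have hX1 : 2 * T * x ≤ X := by rw [hX]; exact Nat.le_ceil _
    have hX2 : (X : ℝ) < 2 * T * x + 1 := by
      rw [hX]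
      exact Nat.ceil_lt_add_one (by positivity)
    have hTx : x ≤ T * x := le_mul_of_one_le_left hx0.le hT
    have hX3 : (X : ℝ) ≤ 3 * T * x := by linarith
    have hxX : x ≤ X := by linarith
    have hlX : Real.log x ≤ Real.log X := Real.log_le_log hx0 hxX
    -- the scale `L`
    obtain ⟨L, hL⟩ : ∃ L : ℕ, L = ⌊θ * Real.log x⌋₊ := ⟨_, rfl⟩
    rw [div_le_iff₀ hθ0] at hlx2
    have hL1 : (L : ℝ) ≤ θ * Real.log x := by
      rw [hL]
      exact Nat.floor_le (by positivity)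
    have hL2 : θ * Real.log x < L + 1 := by
      rw [hL]
      exact Nat.lt_floor_add_one _
    have hL0r : (1 : ℝ) ≤ L0 := by exact_mod_cast hL0
    have hL3 : (L0 : ℝ) ≤ L := by linarith
    have hL3' : L0 ≤ L := by exact_mod_cast hL3
    have hL4 : θ / 2 ≤ (L : ℝ) / Real.log x := by
      rw [le_div_iff₀ hlx]
      linarith
    have hL5 : (L : ℝ) ≤ lam * Real.log x :=
      hL1.trans (mul_le_mul_of_nonneg_right hθ1 hlx.le)
    have hL6 : (L : ℝ) ≤ Real.log x := by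
      refine hL1.trans ?_
      calc θ * Real.log x ≤ 1 * Real.log x := mul_le_mul_of_nonneg_right hθ2 hlx.le
        _ = Real.log x := one_mul _
    have hL7 : (L : ℝ) ≤ η * Real.log X := by
      refine hL1.trans ?_
      exact mul_le_mul hθ3 hlX hlx.le hη.le
    have hgood := hev hgx L hL3' hL5
    rw [← hn] at hgood
    obtain ⟨G, hG⟩ : ∃ G : Finset ℕ, G = (Tx x).filter (fun N : ℕ => (N : ℝ) ≤ T * x ∧
      GdR α m s R e' d (ε / 2) ρ' y L N) := ⟨_, rfl⟩
    rw [← hG] at hgood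
    have hgood2 : c * x * (θ / 2) ^ n ≤ (G.card : ℝ) := by
      refine le_trans ?_ hgood
      apply mul_le_mul_of_nonneg_left _ (by positivity)
      exact pow_le_pow_left₀ (by positivity) hL4 n
    have hGpos : (0 : ℝ) < G.card := lt_of_lt_of_le (by positivity) hgood2
    have hGne : G.Nonempty := by
      rw [← card_pos]
      exact_mod_cast hGpos
    have hGm : ∀ N ∈ G, N + L < X ∧ GdR α m s R e' d (ε / 2) ρ' y L N := by
      intro N hN
      rw [hG, mem_filter] at hN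
      refine ⟨?_, hN.2.2⟩
      have h1 : (N : ℝ) ≤ T * x := hN.2.1
      have h3 : Real.log x ≤ x - 1 := Real.log_le_sub_one_of_pos hx0
      have h4 : ((N + L : ℕ) : ℝ) < (X : ℝ) := by
        push_cast
        linarith
      exact_mod_cast h4
    obtain ⟨A, hA1, hA2⟩ := to_rot α m s Q R hQR e' d (ε / 2) ε η ρ ρ' hρ'1 y (by linarith) L X hL7
      hpos G hGne hGm
    refine ⟨A, hA1, ?_⟩
    obtain ⟨Z, hZ⟩ : ∃ Z : ℝ, Z = ((JX α Q A ρ y ε η X).ncard : ℝ) := ⟨_, rfl⟩
    have hZ0 : 0 ≤ Z := by rw [hZ]; exact Nat.cast_nonneg _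
    have h2 : (G.card : ℝ) ≤ 2 ^ n * ((L + 1) * Z) := by
      have h0 : (G.card : ℝ) ≤ 2 ^ (m * s) * ((L + 1) * ((JX α Q A ρ y ε η X).ncard : ℝ)) := by
        exact_mod_cast hA2
      rw [hn, hZ]
      exact h0
    rw [← hZ]
    have h3 : (G.card : ℝ) ≤ 2 ^ n * ((2 * Real.log x) * Z) := by
      refine h2.trans ?_
      apply mul_le_mul_of_nonneg_left _ (by positivity)
      apply mul_le_mul_of_nonneg_right _ hZ0
      linarith
    have h4 := hgood2.trans h3
    have h5 : (X : ℝ) / Real.log X ≤ 3 * T * x / Real.log x := by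
      calc (X : ℝ) / Real.log X ≤ (X : ℝ) / Real.log x :=
            div_le_div_of_nonneg_left (by positivity) hlx hlX
        _ ≤ 3 * T * x / Real.log x := div_le_div_of_nonneg_right hX3 hlx.le
    calc c' * ((X : ℝ) / Real.log X) ≤ c' * (3 * T * x / Real.log x) :=
          mul_le_mul_of_nonneg_left h5 hc'0.le
      _ = c * x * (θ / 2) ^ n / (2 ^ (n + 1) * Real.log x) := by
          rw [hc']
          field_simp
      _ ≤ Z := by
          rw [div_le_iff₀ (by positivity), pow_succ]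
          linarith
  -- one set `A` for arbitrarily large good scales
  obtain ⟨A, hA1, hA2⟩ : ∃ A : Finset (Fin (m * s)),
      (13 / 50 - 2 * e') * m ≤ ((A.image Fin.divNat).card : ℝ) ∧
      ∃ᶠ x : ℝ in atTop, c' * (((⌈2 * T * x⌉₊ : ℕ) : ℝ) / Real.log ((⌈2 * T * x⌉₊ : ℕ) : ℝ)) ≤
        ((JX α Q A ρ y ε η ⌈2 * T * x⌉₊).ncard : ℝ) := by
    by_contra hcon
    push Not at hcon
    have h1 : ∀ A : Finset (Fin (m * s)), ∀ᶠ x : ℝ in atTop,
        (13 / 50 - 2 * e') * m ≤ ((A.image Fin.divNat).card : ℝ) →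
        ¬ c' * (((⌈2 * T * x⌉₊ : ℕ) : ℝ) / Real.log ((⌈2 * T * x⌉₊ : ℕ) : ℝ)) ≤
          ((JX α Q A ρ y ε η ⌈2 * T * x⌉₊).ncard : ℝ) := by
      intro A
      by_cases h : (13 / 50 - 2 * e') * m ≤ ((A.image Fin.divNat).card : ℝ)
      · filter_upwards [hcon A h] with x hx _
        exact not_le.2 hx
      · exact Eventually.of_forall fun x h' => absurd h' h
    obtain ⟨x, hx1, hx2, hx3⟩ := (hfr.and_eventually (H.and (eventually_all.2 h1))).exists
    obtain ⟨A, h4, h5⟩ := hx2 hx1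
    exact hx3 A h4 h5
  refine ⟨A, c', hc'0, hA1, ?_⟩
  have htend : Tendsto (fun x : ℝ => ⌈2 * T * x⌉₊) atTop atTop :=
    tendsto_nat_ceil_atTop.comp (tendsto_id.const_mul_atTop (by positivity))
  exact htend.frequently hA2

end Pool.Agent.H96.RO
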