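import Pool.Agent.H95.RO.Cor
import Pool.Agent.H96.WP.Bx

/-!
# [H96 RO BX] MP_8923e7_nt, THEOREM R: families of positions with prescribed classes and phases
-/

set_option autoImplicit false

namespace Pool.Agent.H96.RO

open Finset Pool.Agent.H96.WP Pool.Agent.H95.RO

theorem nd_le_int (t : ℝ) (z : ℤ) : nd t ≤ |t - z| := round_le t z

/-- bounded gaps for the times at which a rotation, inside a class, is near a given point -/
theorem syn {t : ℕ} (α : Fin t → ℝ) (hα : Ind α) (W : ℕ) (hW : 0 < W) (ρ : ℕ) (y : Fin t → ℝ)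
    (ε : ℝ) (hε : 0 < ε) :
    ∃ B : ℕ, ∀ M : ℕ, W ∣ M → ∃ h : ℕ, M ≤ h ∧ h ≤ M + B ∧ h ≡ ρ [MOD W] ∧
      ∀ l, nd (α l * h - y l) < ε := by
  obtain ⟨g, hg⟩ := exists_nat_ge (2 / ε + 1)
  have hg0 : (0 : ℝ) < g := by
    have : 0 < 2 / ε := by positivity
    linarith
  have hg1 : 1 / (g : ℝ) ≤ ε / 2 := by
    rw [div_le_iff₀ hg0]
    have h1 : 2 / ε ≤ g := by linarith
    rw [div_le_iff₀ hε] at h1
    linarith
  have hgn : 0 < g := by exact_mod_cast hg0
  have hk : ∀ k : Fin t → Fin g, ∃ h : ℕ, h ≡ ρ [MOD W] ∧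
      ∀ l, nd (α l * h - (y l - ((k l : ℕ) : ℝ) / g)) < ε / 2 := by
    intro k
    obtain ⟨h, -, h2, h3⟩ := krn α hα W hW ρ (fun l => y l - ((k l : ℕ) : ℝ) / g) (ε / 2)
      (by positivity) 0
    exact ⟨h, h2, h3⟩
  choose H hH1 hH2 using hk
  refine ⟨∑ k, H k, fun M hM => ?_⟩
  have hfr : ∀ l : Fin t, ⌊Int.fract (α l * M) * g⌋₊ < g := by
    intro l
    rw [Nat.floor_lt (mul_nonneg (Int.fract_nonneg _) hg0.le)]
    have := Int.fract_lt_one (α l * M)
    nlinarith
  obtain ⟨k, hkd⟩ : ∃ k : Fin t → Fin g, k = fun l => ⟨⌊Int.fract (α l * M) * g⌋₊, hfr l⟩ := ⟨_, rfl⟩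
  refine ⟨M + H k, Nat.le_add_right _ _, ?_, ?_, fun l => ?_⟩
  · exact Nat.add_le_add_left (Finset.single_le_sum (f := H) (fun _ _ => Nat.zero_le _)
      (Finset.mem_univ k)) M
  · have h1 : M ≡ 0 [MOD W] := Nat.modEq_zero_iff_dvd.2 hM
    have h2 := h1.add (hH1 k)
    rwa [zero_add] at h2
  · have h1 := hH2 k l
    have hkl : ((k l : ℕ) : ℝ) = (⌊Int.fract (α l * M) * g⌋₊ : ℝ) := by rw [hkd]
    have h2 : ((k l : ℕ) : ℝ) ≤ Int.fract (α l * M) * g := by
      rw [hkl]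
      exact Nat.floor_le (mul_nonneg (Int.fract_nonneg _) hg0.le)
    have h3 : Int.fract (α l * M) * g < ((k l : ℕ) : ℝ) + 1 := by
      rw [hkl]
      exact Nat.lt_floor_add_one _
    have h4 : nd (α l * M - ((k l : ℕ) : ℝ) / g) < ε / 2 := by
      refine (nd_le_int _ ⌊α l * M⌋).trans_lt ?_
      have h5 : α l * M - ((k l : ℕ) : ℝ) / g - (⌊α l * M⌋ : ℝ) =
          Int.fract (α l * M) - ((k l : ℕ) : ℝ) / g := by
        rw [← Int.self_sub_floor]
        ring
      rw [h5, abs_of_nonneg (by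
        rw [sub_nonneg, div_le_iff₀ hg0]
        exact h2)]
      have h6 : Int.fract (α l * M) < (((k l : ℕ) : ℝ) + 1) / g := by
        rw [lt_div_iff₀ hg0]
        exact h3
      have h7 : (((k l : ℕ) : ℝ) + 1) / g = ((k l : ℕ) : ℝ) / g + 1 / g := by ring
      linarith
    have h5 : α l * ((M + H k : ℕ) : ℝ) - y l = (α l * M - ((k l : ℕ) : ℝ) / g) +
        (α l * (H k : ℝ) - (y l - ((k l : ℕ) : ℝ) / g)) := by
      push_cast
      ring
    rw [h5]
    have h6 := nd_add (α l * M - ((k l : ℕ) : ℝ) / g) (α l * (H k : ℝ) - (y l - ((k l : ℕ) : ℝ) / g))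
    linarith

open Classical in
/-- increasing families with prescribed classes and phases -/
noncomputable def BXR {t : ℕ} (α : Fin t → ℝ) (R n : ℕ) (ρ : Fin n → ℕ) (y : Fin n → Fin t → ℝ)
    (ε : ℝ) (L : ℕ) : Finset (Fin n → ℕ) :=
  (BX R n ρ L).filter (fun u => ∀ i l, nd (α l * u i - y i l) < ε)

theorem mem_BXR {t : ℕ} {α : Fin t → ℝ} {R n : ℕ} {ρ : Fin n → ℕ} {y : Fin n → Fin t → ℝ}
    {ε : ℝ} {L : ℕ} {u : Fin n → ℕ} :
    u ∈ BXR α R n ρ y ε L ↔ ((∀ i, u i ≤ L) ∧ StrictMono u ∧ ∀ i, u i ≡ ρ i [MOD R]) ∧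
      ∀ i l, nd (α l * u i - y i l) < ε := by
  classical
  unfold BXR
  rw [mem_filter, mem_BX]

/-- a positive proportion of all families -/
theorem bxr_card {t : ℕ} (α : Fin t → ℝ) (hα : Ind α) (R n : ℕ) (hR : 0 < R) (hn : 0 < n)
    (ρ : Fin n → ℕ) (y : Fin n → Fin t → ℝ) (ε : ℝ) (hε : 0 < ε) :
    ∃ (δ : ℝ) (L0 : ℕ), 0 < δ ∧ 1 ≤ L0 ∧ ∀ L : ℕ, L0 ≤ L →
      δ * (L : ℝ) ^ n ≤ ((BXR α R n ρ y ε L).card : ℝ) := by
  classical
  choose B hB using fun i => syn α hα R hR (ρ i) (y i) ε hε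
  choose h hh1 hh2 hh3 hh4 using hB
  obtain ⟨D, hD⟩ : ∃ D : ℕ, D = R * (∑ i, B i + 1) := ⟨_, rfl⟩
  have hBD : ∀ i, B i < D := by
    intro i
    have h1 := Finset.single_le_sum (f := B) (fun _ _ => Nat.zero_le _) (Finset.mem_univ i)
    rw [hD]
    calc B i < ∑ i, B i + 1 := by omega
      _ = 1 * (∑ i, B i + 1) := (one_mul _).symm
      _ ≤ R * (∑ i, B i + 1) := Nat.mul_le_mul_right _ hR
  have hD0 : 0 < D := (Nat.zero_le _).trans_lt (hBD ⟨0, hn⟩)
  have hRD : ∀ z, R ∣ D * z := fun z => by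
    rw [hD, mul_assoc]
    exact dvd_mul_right _ _
  have hDn : 0 < D * n := Nat.mul_pos hD0 hn
  refine ⟨(1 / (2 * (D : ℝ) * n)) ^ n, D * n, by
    have : (0 : ℝ) < D := by exact_mod_cast hD0
    have : (0 : ℝ) < n := by exact_mod_cast hn
    positivity, hDn, fun L hL => ?_⟩
  obtain ⟨q, hq⟩ : ∃ q : ℕ, q = L / (D * n) := ⟨_, rfl⟩
  have hq1 : 1 ≤ q := by
    rw [hq]
    exact (Nat.le_div_iff_mul_le hDn).2 (by rwa [one_mul])
  have hqL : D * n * q ≤ L := by
    rw [hq]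
    exact Nat.mul_div_le L (D * n)
  have hqU : L < D * n * (q + 1) := by
    rw [hq, mul_comm]
    exact Nat.lt_mul_of_div_lt (Nat.lt_succ_self _) hDn
  have hlo : ∀ (t : Fin n → ℕ) (i : Fin n), D * (i * q + t i) ≤ h i (D * (i * q + t i)) (hRD _) :=
    fun t i => hh1 i _ _
  have hup : ∀ (t : Fin n → ℕ) (i : Fin n), h i (D * (i * q + t i)) (hRD _) <
      D * (i * q + t i + 1) := by
    intro t i
    have h1 := hh2 i _ (hRD (i * q + t i))
    have h2 := hBD i
    calc h i (D * (i * q + t i)) (hRD _) ≤ D * (i * q + t i) + B i := h1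
      _ < D * (i * q + t i) + D := by omega
      _ = D * (i * q + t i + 1) := by ring
  have hbd : ∀ (t : Fin n → ℕ) (i : Fin n), t i < q →
      h i (D * (i * q + t i)) (hRD _) < D * ((i + 1) * q) := by
    intro t i ht
    refine (hup t i).trans_le (Nat.mul_le_mul_left _ ?_)
    have h2 : ((i : ℕ) + 1) * q = i * q + q := by ring
    omega
  have hcard : q ^ n ≤ (BXR α R n ρ y ε L).card := by
    have h1 : (Fintype.piFinset (fun _ : Fin n => range q)).card = q ^ n := by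
      rw [Fintype.card_piFinset]
      simp
    rw [← h1]
    refine card_le_card_of_injOn (fun t i => h i (D * (i * q + t i)) (hRD _)) ?_ ?_
    · intro t ht
      rw [mem_coe, Fintype.mem_piFinset] at ht
      have ht' : ∀ i, t i < q := fun i => mem_range.1 (ht i)
      rw [mem_coe, mem_BXR]
      refine ⟨⟨fun i => ?_, ?_, fun i => hh3 i _ _⟩, fun i l => hh4 i _ _ l⟩
      · refine (hbd t i (ht' i)).le.trans ?_
        calc D * (((i : ℕ) + 1) * q) ≤ D * (n * q) := by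
              refine Nat.mul_le_mul_left _ (Nat.mul_le_mul_right _ ?_)
              exact i.2
          _ = D * n * q := by ring
          _ ≤ L := hqL
      · intro i j hij
        have h2 : (i : ℕ) + 1 ≤ j := hij
        calc h i (D * (i * q + t i)) (hRD _) < D * (((i : ℕ) + 1) * q) := hbd t i (ht' i)
          _ ≤ D * (j * q) := Nat.mul_le_mul_left _ (Nat.mul_le_mul_right _ h2)
          _ ≤ D * (j * q + t j) := Nat.mul_le_mul_left _ (Nat.le_add_right _ _)
          _ ≤ h j (D * (j * q + t j)) (hRD _) := hlo t j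
    · intro t ht t' ht' hh
      funext i
      have h2 : h i (D * (i * q + t i)) (hRD _) = h i (D * (i * q + t' i)) (hRD _) := congrFun hh i
      have h3 : D * (i * q + t i) < D * (i * q + t' i + 1) := by
        refine (hlo t i).trans_lt ?_
        rw [h2]
        exact hup t' i
      have h4 : D * (i * q + t' i) < D * (i * q + t i + 1) := by
        refine (hlo t' i).trans_lt ?_
        rw [← h2]
        exact hup t i
      have h5 := Nat.lt_of_mul_lt_mul_left h3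
      have h6 := Nat.lt_of_mul_lt_mul_left h4
      omega
  have h2 : 1 / (2 * (D : ℝ) * n) * L ≤ q := by
    have h3 : (L : ℝ) ≤ D * n * (q + 1) := by exact_mod_cast hqU.le
    have h4 : (1 : ℝ) ≤ q := by exact_mod_cast hq1
    have h5 : (0 : ℝ) < D * n := by exact_mod_cast hDn
    rw [one_div, inv_mul_le_iff₀ (by positivity)]
    nlinarith
  calc (1 / (2 * (D : ℝ) * n)) ^ n * (L : ℝ) ^ n = (1 / (2 * (D : ℝ) * n) * L) ^ n := by
        rw [mul_pow]
    _ ≤ (q : ℝ) ^ n := by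
        refine pow_le_pow_left₀ ?_ h2 n
        have : (0 : ℝ) < D := by exact_mod_cast hD0
        have : (0 : ℝ) < n := by exact_mod_cast hn
        positivity
    _ ≤ ((BXR α R n ρ y ε L).card : ℝ) := by exact_mod_cast hcard

end Pool.Agent.H96.RO
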