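import Pool.Agent.H96.RO.Ob
import Pool.Agent.H96.RO.Bx
import Pool.Agent.H61.UN.Main

/-!
# [H96 RO MQ] MP_8923e7_nt, THEOREM R: the number of `N` with exactly one good family of positions (from `H96/WP/Mq.lean`)
-/

set_option autoImplicit false

namespace Pool.Agent.H96.RO

open Finset Filter Pool.Agent.H21.MT Pool.Agent.H92.MM Pool.Agent.H61.UN Pool.Agent.H96.WP
  Pool.Agent.H95.RO

/-- `N ≡ 0 (mod R)`, `‖α_l N‖ < d`, the primes `N + z`, `0 ≤ z ≤ L`, are among the `N + u i`, and many blocks contain a prime -/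
def GdR {t : ℕ} (α : Fin t → ℝ) (m s R : ℕ) (e d ε : ℝ) (ρ : Fin (m * s) → ℕ)
    (y : Fin (m * s) → Fin t → ℝ) (L N : ℕ) : Prop :=
  R ∣ N ∧ (∀ l, nd (α l * N) < d) ∧ ∃ u ∈ BXR α R (m * s) ρ y ε L,
    (13 / 50 - 2 * e) * m ≤ (pc (fun q : Fin m × Fin s => u (finProdFinEquiv q)) N : ℝ) ∧
    ∀ z ≤ L, (N + z).Prime → ∃ i, u i = z

open Classical in
theorem good_rot {t : ℕ} (α : Fin t → ℝ) (hα : Ind α) (hsc : Scl α) (d : ℝ) (hd : 0 < d)
    (hd1 : d ≤ 1 / 4) (ε : ℝ) (hε : 0 < ε) (e : ℝ) (he : 0 < e) (he1 : e ≤ 1 / 100) (m : ℕ)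
    (hm : 1 ≤ m) :
    ∃ (s w : ℕ) (Good : ℝ → Prop), 1 ≤ s ∧ (∃ᶠ x : ℝ in atTop, Good x) ∧
      ∀ R : ℕ, 0 < R → primorial w ∣ R → ∀ ρ : Fin (m * s) → ℕ, (∀ i, Nat.Coprime (ρ i) R) →
      ∀ y : Fin (m * s) → Fin t → ℝ,
      ∃ (c T lam : ℝ) (L0 : ℕ), 0 < c ∧ 1 ≤ T ∧ 0 < lam ∧ 1 ≤ L0 ∧ ∀ᶠ x : ℝ in atTop, Good x →
        ∀ L : ℕ, L0 ≤ L → (L : ℝ) ≤ lam * Real.log x →
          c * x * ((L : ℝ) / Real.log x) ^ (m * s) ≤
            (((Tx x).filter (fun N : ℕ => (N : ℝ) ≤ T * x ∧ GdR α m s R e d ε ρ y L N)).card : ℝ) := by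
  obtain ⟨s, a, w, Good, hs, ha, ha1, hfr, hob⟩ := box_rot α hsc d hd hd1 e he he1 m hm
  refine ⟨s, w, Good, hs, hfr, ?_⟩
  intro R hR hRw ρ hρc y
  obtain ⟨c0, hc0, hob⟩ := hob R hR hRw
  have hn0 : 0 < m * s := Nat.mul_pos (by omega) (by omega)
  obtain ⟨δ, L0, hδ, hL0, hbx⟩ := bxr_card α hα R (m * s) hR hn0 ρ y ε hε
  have hne : Nonempty (Fin (m * s)) := ⟨⟨0, hn0⟩⟩
  have hcard : Fintype.card (Fin (m * s)) = m * s := Fintype.card_fin _
  have hcardO : Fintype.card (Option (Fin (m * s))) = m * s + 1 := by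
    rw [Fintype.card_option, hcard]
  obtain ⟨Ct, hCt, htail⟩ := tail (Fin (m * s)) a ha
  obtain ⟨Co, hCo, htot⟩ := total (Option (Fin (m * s))) a ha
  rw [hcard] at htail
  rw [hcardO] at htot
  have hcδ : 0 < c0 * δ := mul_pos hc0 hδ
  have hT1 : (1 : ℝ) ≤ max 1 (4 * Ct / (c0 * δ)) := le_max_left _ _
  have hT2 : 4 * Ct / (c0 * δ) ≤ max 1 (4 * Ct / (c0 * δ)) := le_max_right _ _
  generalize max 1 (4 * Ct / (c0 * δ)) = T at hT1 hT2
  have hT0 : 0 < T := by linarith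
  refine ⟨c0 * δ / 2, T, min 1 (c0 * δ / (4 * Co)), L0, by positivity, hT1, by positivity, hL0, ?_⟩
  filter_upwards [hob, htail, htot, eventually_ge_atTop (4 : ℝ)] with x hob htail htot hx4
  intro hgx L hL hLA
  have hx0 : 0 < x := by linarith
  have hlog : 0 < Real.log x := Real.log_pos (by linarith)
  have hL1 : 1 ≤ L := hL0.trans hL
  have hLr0 : (0 : ℝ) < L := by exact_mod_cast hL1
  have hLlog : (L : ℝ) ≤ Real.log x := by
    refine hLA.trans ?_
    calc min 1 (c0 * δ / (4 * Co)) * Real.log x ≤ 1 * Real.log x :=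
          mul_le_mul_of_nonneg_right (min_le_left _ _) hlog.le
      _ = Real.log x := one_mul _
  have hob := hob hgx L hL1 hLlog
  have htail := htail L hL1 T hT1
  have htot := htot L hL1
  obtain ⟨κ, hκd⟩ : ∃ κ : ℝ, κ = (L : ℝ) / Real.log x := ⟨_, rfl⟩
  rw [← hκd] at htail htot ⊢
  have hκ : 0 < κ := by rw [hκd]; exact div_pos hLr0 hlog
  have hκ1 : κ ≤ c0 * δ / (4 * Co) := by
    rw [hκd, div_le_iff₀ hlog]
    exact hLA.trans (mul_le_mul_of_nonneg_right (min_le_right _ _) hlog.le)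
  obtain ⟨BB, hBB⟩ : ∃ BB, BB = BXR α R (m * s) ρ y ε L := ⟨_, rfl⟩
  have hBBc : δ * (L : ℝ) ^ (m * s) ≤ BB.card := by
    rw [hBB]
    exact hbx L hL
  have hmem : ∀ u ∈ BB, (∀ i, u i ≤ L) ∧ StrictMono u ∧ ∀ i, u i ≡ ρ i [MOD R] := by
    intro u hu
    rw [hBB] at hu
    exact (mem_BXR.1 hu).1
  -- the three kinds of pairs
  obtain ⟨P1, hP1⟩ : ∃ P1 : (Fin (m * s) → ℕ) → ℕ → Prop, P1 = fun (u : Fin (m * s) → ℕ) (N : ℕ) =>
    T * x < (N : ℝ) ∧ ∀ i, Rgh (x ^ a) (N + u i) := ⟨_, rfl⟩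
  obtain ⟨P2, hP2⟩ : ∃ P2 : (Fin (m * s) → ℕ) → ℕ → Prop, P2 = fun (u : Fin (m * s) → ℕ) (N : ℕ) =>
    (∀ i, Rgh (x ^ a) (N + u i)) ∧ ∃ y ≤ L, (∀ i, u i ≠ y) ∧ Rgh (x ^ a) (N + y) := ⟨_, rfl⟩
  obtain ⟨P3, hP3⟩ : ∃ P3 : (Fin (m * s) → ℕ) → ℕ → Prop, P3 = fun (u : Fin (m * s) → ℕ) (N : ℕ) =>
    (N : ℝ) ≤ T * x ∧ R ∣ N ∧ (∀ l, nd (α l * N) < d) ∧ (∀ i, Rgh (x ^ a) (N + u i)) ∧
      (13 / 50 - 2 * e) * m ≤ (pc (fun q : Fin m × Fin s => u (finProdFinEquiv q)) N : ℝ) ∧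
      (∀ y ≤ L, Rgh (x ^ a) (N + y) → ∃ i, u i = y) := ⟨_, rfl⟩
  have key : ∀ u ∈ BB, c0 * x / Real.log x ^ (m * s) ≤
      ∑ N ∈ (Tx x).filter (P1 u), gw x N + ∑ N ∈ (Tx x).filter (P2 u), gw x N +
        ∑ N ∈ (Tx x).filter (P3 u), gw x N := by
    intro u hu
    obtain ⟨hu1, hu2, hu3⟩ := hmem u hu
    have hinj : Function.Injective (fun q : Fin m × Fin s => u (finProdFinEquiv q)) :=
      hu2.injective.comp finProdFinEquiv.injective
    have hRg : ∀ N, (∀ i, Rgh (x ^ a) (N + u i)) ↔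
        ∀ q : Fin m × Fin s, Rgh (x ^ a) (N + u (finProdFinEquiv q)) := by
      intro N
      constructor
      · exact fun h q => h _
      · intro h i
        have := h (finProdFinEquiv.symm i)
        rwa [Equiv.apply_symm_apply] at this
    refine (hob (fun q => u (finProdFinEquiv q)) (mem_IJ.2 ⟨fun q => hu1 _, hinj⟩) (by
      intro q
      have h1 := hu3 (finProdFinEquiv q)
      have h2 : Nat.gcd (ρ (finProdFinEquiv q)) R = 1 := hρc _
      show Nat.gcd (u (finProdFinEquiv q)) R = 1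
      rw [← h2]
      exact Nat.ModEq.gcd_eq h1)).trans ?_
    rw [sum_filter, sum_filter, sum_filter, sum_filter, ← sum_add_distrib, ← sum_add_distrib]
    refine sum_le_sum fun N _ => ?_
    have hg := (gw_pos x N).le
    by_cases hE : R ∣ N ∧ (∀ l, nd (α l * N) < d) ∧
        (∀ q : Fin m × Fin s, Rgh (x ^ a) (N + u (finProdFinEquiv q))) ∧
        (13 / 50 - 2 * e) * m ≤ (pc (fun q : Fin m × Fin s => u (finProdFinEquiv q)) N : ℝ)
    · rw [if_pos hE]
      have hE2 := (hRg N).2 hE.2.2.1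
      by_cases h1 : P1 u N
      · rw [if_pos h1]
        have : (0 : ℝ) ≤ if P2 u N then gw x N else 0 := by split_ifs <;> linarith
        have : (0 : ℝ) ≤ if P3 u N then gw x N else 0 := by split_ifs <;> linarith
        linarith
      · by_cases h2 : P2 u N
        · rw [if_neg h1, if_pos h2]
          have : (0 : ℝ) ≤ if P3 u N then gw x N else 0 := by split_ifs <;> linarith
          linarith
        · have h3 : P3 u N := by
            rw [hP3]
            refine ⟨?_, hE.1, hE.2.1, hE2, hE.2.2.2, ?_⟩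
            · by_contra hc
              apply h1
              rw [hP1]
              exact ⟨lt_of_not_ge hc, hE2⟩
            · intro y hy hr
              by_contra hne
              push Not at hne
              apply h2
              rw [hP2]
              exact ⟨hE2, y, hy, hne, hr⟩
          rw [if_neg h1, if_neg h2, if_pos h3]
          linarith
    · rw [if_neg hE]
      have : (0 : ℝ) ≤ if P1 u N then gw x N else 0 := by split_ifs <;> linarith
      have : (0 : ℝ) ≤ if P2 u N then gw x N else 0 := by split_ifs <;> linarith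
      have : (0 : ℝ) ≤ if P3 u N then gw x N else 0 := by split_ifs <;> linarith
      linarith
  have hS0 : c0 * δ * x * κ ^ (m * s) ≤ ∑ u ∈ BB, (∑ N ∈ (Tx x).filter (P1 u), gw x N +
      ∑ N ∈ (Tx x).filter (P2 u), gw x N + ∑ N ∈ (Tx x).filter (P3 u), gw x N) := by
    have h1 : ∑ u ∈ BB, c0 * x / Real.log x ^ (m * s) ≤ _ := sum_le_sum key
    rw [sum_const, nsmul_eq_mul] at h1
    refine le_trans ?_ h1
    have h2 : 0 ≤ c0 * x / Real.log x ^ (m * s) := by positivity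
    have h3 := mul_le_mul_of_nonneg_right hBBc h2
    refine le_trans (le_of_eq ?_) h3
    rw [hκd, div_pow]
    field_simp
  rw [sum_add_distrib, sum_add_distrib, main_swap, main_swap, main_swap] at hS0
  -- far part
  have hF1 : ∑ N ∈ Tx x, gw x N * ((BB.filter (fun u => P1 u N)).card : ℝ) ≤
      c0 * δ / 4 * x * κ ^ (m * s) := by
    have h1 : ∑ N ∈ Tx x, gw x N * ((BB.filter (fun u => P1 u N)).card : ℝ) ≤
        ∑ N ∈ (Tx x).filter (fun N : ℕ => T * x < (N : ℝ)),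
          gw x N * ((RJ (Fin (m * s)) x a L N).card : ℝ) := by
      rw [sum_filter]
      refine sum_le_sum fun N _ => ?_
      by_cases hN : T * x < (N : ℝ)
      · rw [if_pos hN]
        refine mul_le_mul_of_nonneg_left ?_ (gw_pos x N).le
        have : (BB.filter (fun u => P1 u N)).card ≤ (RJ (Fin (m * s)) x a L N).card := by
          refine card_le_card fun u hu => ?_
          rw [mem_filter, hP1] at hu
          obtain ⟨hu1, hu2, -⟩ := hmem u hu.1
          rw [mem_RJ]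
          exact ⟨⟨hu1, hu2.injective⟩, hu.2.2⟩
        exact_mod_cast this
      · rw [if_neg hN]
        have : BB.filter (fun u => P1 u N) = ∅ := by
          rw [filter_eq_empty_iff]
          intro u _ hu
          rw [hP1] at hu
          exact hN hu.1
        rw [this, card_empty, Nat.cast_zero, mul_zero]
    refine h1.trans (htail.trans ?_)
    have h2 : Ct / T ≤ c0 * δ / 4 := by
      rw [div_le_iff₀ hcδ] at hT2
      rw [div_le_iff₀ hT0]
      linarith
    have h3 : 0 ≤ x * κ ^ (m * s) := by positivity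
    have h4 := mul_le_mul_of_nonneg_right h2 h3
    linarith [h4]
  -- pairs with one more rough site
  have hF2 : ∑ N ∈ Tx x, gw x N * ((BB.filter (fun u => P2 u N)).card : ℝ) ≤
      c0 * δ / 4 * x * κ ^ (m * s) := by
    have h1 : ∑ N ∈ Tx x, gw x N * ((BB.filter (fun u => P2 u N)).card : ℝ) ≤
        ∑ N ∈ Tx x, gw x N * ((RJ (Option (Fin (m * s))) x a L N).card : ℝ) := by
      refine sum_le_sum fun N _ => ?_
      refine mul_le_mul_of_nonneg_left ?_ (gw_pos x N).le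
      have := main_extra x a L N (BB.filter (fun u => P2 u N)) (by
        intro u hu
        rw [mem_filter, hP2] at hu
        obtain ⟨hu1, hu2, -⟩ := hmem u hu.1
        exact ⟨mem_IJ.2 ⟨hu1, hu2.injective⟩, hu.2.1, hu.2.2⟩)
      exact_mod_cast this
    refine h1.trans (htot.trans ?_)
    have h3 : Co * κ ≤ c0 * δ / 4 := by
      have h2 := hκ1
      rw [le_div_iff₀ (by positivity)] at h2
      linarith
    have h4 : 0 ≤ x * κ ^ (m * s) := by positivity
    have h5 := mul_le_mul_of_nonneg_right h3 h4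
    rw [pow_succ]
    linarith [h5]
  -- the main part
  have hF3 : ∑ N ∈ Tx x, gw x N * ((BB.filter (fun u => P3 u N)).card : ℝ) ≤
      (((Tx x).filter (fun N : ℕ => (N : ℝ) ≤ T * x ∧ GdR α m s R e d ε ρ y L N)).card : ℝ) := by
    rw [card_eq_sum_ones, Nat.cast_sum, sum_filter]
    refine sum_le_sum fun N hN => ?_
    by_cases hex : ∃ u ∈ BB, P3 u N
    · obtain ⟨u, hu, hu3⟩ := hex
      have hle : (BB.filter (fun u => P3 u N)).card ≤ 1 := by
        rw [card_le_one]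
        intro u1 h1 u2 h2
        rw [mem_filter, hP3] at h1 h2
        obtain ⟨h1m, -, -, -, h1r, -, h1s⟩ := h1
        obtain ⟨h2m, -, -, -, h2r, -, h2s⟩ := h2
        obtain ⟨h1l, h1st, -⟩ := hmem u1 h1m
        obtain ⟨h2l, h2st, -⟩ := hmem u2 h2m
        rw [← StrictMono.range_inj h1st h2st]
        ext y
        constructor
        · rintro ⟨i, rfl⟩
          exact h2s _ (h1l i) (h1r i)
        · rintro ⟨i, rfl⟩
          exact h1s _ (h2l i) (h2r i)
      have hG : (N : ℝ) ≤ T * x ∧ GdR α m s R e d ε ρ y L N := by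
        rw [hP3] at hu3
        obtain ⟨h1, h2, h2', h3, h4, h5⟩ := hu3
        refine ⟨h1, h2, h2', u, by rw [← hBB]; exact hu, h4, fun z hz hp => ?_⟩
        exact h5 z hz (main_rough (by linarith) ha1 hN hp)
      rw [if_pos hG]
      have h6 : ((BB.filter (fun u => P3 u N)).card : ℝ) ≤ 1 := by exact_mod_cast hle
      calc gw x N * ((BB.filter (fun u => P3 u N)).card : ℝ) ≤ 1 * 1 :=
            mul_le_mul (gw_le_one x N) h6 (Nat.cast_nonneg _) zero_le_one
        _ = ((1 : ℕ) : ℝ) := by norm_num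
    · have h7 : BB.filter (fun u => P3 u N) = ∅ := by
        rw [filter_eq_empty_iff]
        intro u hu hu3
        exact hex ⟨u, hu, hu3⟩
      rw [h7, card_empty, Nat.cast_zero, mul_zero]
      split_ifs <;> simp
  have h8 : c0 * δ / 2 * x * κ ^ (m * s) = c0 * δ * x * κ ^ (m * s) -
      c0 * δ / 4 * x * κ ^ (m * s) - c0 * δ / 4 * x * κ ^ (m * s) := by ring
  linarith

end Pool.Agent.H96.RO
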