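import Pool.Agent.H95.RO.Med
import Pool.Agent.H95.RO.Fej
import Pool.Agent.H96.WP.Oq

/-!
# [H96 RO OB] MP_8923e7_nt, THEOREM R: one box (from `H96/WP/Oq.lean`, with the measure of `med_rot`)
-/

set_option autoImplicit false

namespace Pool.Agent.H96.RO

open Finset Filter Pool.Agent.H21.MT Pool.Agent.H92.MM Pool.Agent.H61.UN Pool.Agent.H96.WP
  Pool.Agent.H95.RO

private theorem dd_le {ι : Type} [Fintype ι] [DecidableEq ι] {L : ℕ} (hL : 1 ≤ L) {v : ι → ℕ}
    (hv : ∀ i, v i ≤ L) : dd v ≤ L ^ (Fintype.card ι ^ 2) := by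
  unfold dd
  calc ∏ q ∈ (univ : Finset (ι × ι)).filter (fun q => q.1 ≠ q.2), ((v q.1 : ℤ) - v q.2).natAbs
      ≤ ∏ _q ∈ (univ : Finset (ι × ι)).filter (fun q => q.1 ≠ q.2), L := by
        apply prod_le_prod'
        intro q _
        have h1 := hv q.1
        have h2 := hv q.2
        omega
    _ = L ^ ((univ : Finset (ι × ι)).filter (fun q => q.1 ≠ q.2)).card := prod_const _
    _ ≤ L ^ (Fintype.card ι ^ 2) := by
        apply Nat.pow_le_pow_right hL
        refine (card_filter_le _ _).trans ?_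
        rw [card_univ, Fintype.card_prod, sq]

open Classical in
private theorem ob_rot {m s : ℕ} (hm : 1 ≤ m) {e C2 nmv : ℝ} (he : 0 < e) (he1 : e ≤ 1 / 100)
    (hC2 : 0 < C2) (hnm : 0 < nmv) {x a : ℝ} (v : Fin m × Fin s → ℕ) {W b : ℕ} (μ S : ℕ → ℝ)
    (G : ℕ → Prop)
    (h0 : ∀ N, 0 ≤ μ N)
    (h1 : ∀ N, μ N ≠ 0 → N % W = b % W ∧ ∀ i, Rgh (x ^ a) (N + v i))
    (h2 : ∀ N, μ N ≤ C2 * gw x N / nmv) (h3 : ∑ N ∈ Tx x, μ N = 1)
    (h4 : ∀ j : Fin m, 13 / 50 - e / 4 ≤
      ∑ N ∈ (Tx x).filter (fun N => ∃ l : Fin s, (N + v (j, l)).Prime), μ N)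
    (hS0 : ∀ N, 0 ≤ S N) (hS1 : ∀ N, ¬ G N → 1 ≤ S N) (hS : ∑ N ∈ Tx x, μ N * S N ≤ e / 2) :
    e / C2 * nmv ≤ ∑ N ∈ (Tx x).filter (fun N => G N ∧ (∀ i, Rgh (x ^ a) (N + v i)) ∧
              (13 / 50 - 2 * e) * m ≤ (pc v N : ℝ)), if N % W = b % W then gw x N else 0 := by
  have hm0 : (0 : ℝ) < m := by exact_mod_cast hm
  have hpc : ∀ N, (pc v N : ℝ) =
      ∑ j : Fin m, if (∃ l : Fin s, (N + v (j, l)).Prime) then (1 : ℝ) else 0 := by
    intro N
    unfold pc
    rw [sum_boole]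
  have hpcm : ∀ N, (pc v N : ℝ) ≤ m := by
    intro N
    have : pc v N ≤ m := by
      unfold pc
      refine (card_filter_le _ _).trans ?_
      rw [card_univ, Fintype.card_fin]
    exact_mod_cast this
  have hdc : (13 / 50 - e / 4) * m ≤ ∑ N ∈ Tx x, μ N * (pc v N : ℝ) := by
    calc (13 / 50 - e / 4) * m = ∑ _j : Fin m, (13 / 50 - e / 4) := by
          rw [sum_const, card_univ, Fintype.card_fin, nsmul_eq_mul, mul_comm]
      _ ≤ ∑ j : Fin m, ∑ N ∈ (Tx x).filter (fun N => ∃ l : Fin s, (N + v (j, l)).Prime), μ N :=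
          sum_le_sum fun j _ => h4 j
      _ = ∑ j : Fin m, ∑ N ∈ Tx x, μ N *
            (if (∃ l : Fin s, (N + v (j, l)).Prime) then (1 : ℝ) else 0) := by
          refine sum_congr rfl fun j _ => ?_
          rw [sum_filter]
          refine sum_congr rfl fun N _ => ?_
          split_ifs <;> simp
      _ = ∑ N ∈ Tx x, μ N * (pc v N : ℝ) := by
          rw [sum_comm]
          refine sum_congr rfl fun N _ => ?_
          rw [hpc, mul_sum]
  obtain ⟨E, hE⟩ : ∃ E : Finset ℕ, E = (Tx x).filter (fun N => G N ∧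
      (13 / 50 - 2 * e) * m ≤ (pc v N : ℝ)) := ⟨_, rfl⟩
  have hup : ∑ N ∈ Tx x, μ N * (pc v N : ℝ) ≤
      m * ∑ N ∈ E, μ N + (13 / 50 - 2 * e) * m + m * ∑ N ∈ Tx x, μ N * S N := by
    have hpt : ∀ N ∈ Tx x, μ N * (pc v N : ℝ) ≤
        m * (if G N ∧ (13 / 50 - 2 * e) * m ≤ (pc v N : ℝ) then μ N else 0) +
          μ N * ((13 / 50 - 2 * e) * m) + m * (μ N * S N) := by
      intro N _
      have hμ := h0 N
      have hSN := hS0 N
      have h5 : 0 ≤ μ N * ((13 / 50 - 2 * e) * m) :=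
        mul_nonneg hμ (mul_nonneg (by linarith) hm0.le)
      have h6 : 0 ≤ m * (μ N * S N) := by positivity
      have h7 : μ N * (pc v N : ℝ) ≤ m * μ N := by
        rw [mul_comm]
        exact mul_le_mul_of_nonneg_right (hpcm N) hμ
      by_cases hG : G N
      · by_cases hp : (13 / 50 - 2 * e) * m ≤ (pc v N : ℝ)
        · rw [if_pos ⟨hG, hp⟩]
          linarith
        · rw [if_neg (fun h => hp h.2)]
          have := mul_le_mul_of_nonneg_left (not_le.1 hp).le hμ
          linarith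
      · rw [if_neg (fun h => hG h.1)]
        have h8 : μ N * 1 ≤ μ N * S N := mul_le_mul_of_nonneg_left (hS1 N hG) hμ
        have h9 : m * (μ N * 1) ≤ m * (μ N * S N) := mul_le_mul_of_nonneg_left h8 hm0.le
        linarith
    refine (sum_le_sum hpt).trans (le_of_eq ?_)
    rw [sum_add_distrib, sum_add_distrib, ← mul_sum, ← mul_sum, ← sum_mul, h3, one_mul, hE,
      sum_filter]
  have hEe : e ≤ ∑ N ∈ E, μ N := by
    have h5 := hdc.trans hup
    have h6 : m * ∑ N ∈ Tx x, μ N * S N ≤ m * (e / 2) := mul_le_mul_of_nonneg_left hS hm0.le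
    have h7 : e * m ≤ (∑ N ∈ E, μ N) * m := by
      have h8 : 0 < e * m := by positivity
      linarith
    exact le_of_mul_le_mul_right h7 hm0
  have hfin : ∑ N ∈ E, μ N ≤ C2 / nmv *
      ∑ N ∈ (Tx x).filter (fun N => G N ∧ (∀ i, Rgh (x ^ a) (N + v i)) ∧
              (13 / 50 - 2 * e) * m ≤ (pc v N : ℝ)), if N % W = b % W then gw x N else 0 := by
    rw [mul_sum]
    have h7 : ∑ N ∈ E, μ N = ∑ N ∈ (Tx x).filter (fun N => G N ∧ (∀ i, Rgh (x ^ a) (N + v i)) ∧
              (13 / 50 - 2 * e) * m ≤ (pc v N : ℝ)), μ N := by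
      rw [hE]
      symm
      refine sum_subset ?_ ?_
      · intro N hN
        rw [mem_filter] at hN ⊢
        exact ⟨hN.1, hN.2.1, hN.2.2.2⟩
      · intro N hN hN'
        rw [mem_filter] at hN
        by_contra hne
        apply hN'
        rw [mem_filter]
        exact ⟨hN.1, hN.2.1, (h1 N hne).2, hN.2.2⟩
    rw [h7]
    refine sum_le_sum fun N _ => ?_
    by_cases hne : μ N = 0
    · rw [hne]
      refine mul_nonneg (by positivity) ?_
      split_ifs
      · exact (Real.exp_pos _).le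
      · exact le_rfl
    · rw [if_pos (h1 N hne).1]
      calc μ N ≤ C2 * gw x N / nmv := h2 N
        _ = C2 / nmv * gw x N := by ring
  have h8 := hEe.trans hfin
  rw [div_mul_eq_mul_div, le_div_iff₀ hnm] at h8
  rw [div_mul_eq_mul_div, div_le_iff₀ hC2]
  linarith

open Classical in
/-- one box: for good scales `x`, the `N` with `N ≡ 0 (mod R)`, `‖α_l N‖ < d`, all `N + v_i` rough and many blocks with a
prime have weight `≥ c x / (log x)^(m s)` -/
theorem box_rot {t : ℕ} (α : Fin t → ℝ) (hsc : Scl α) (d : ℝ) (hd : 0 < d) (hd1 : d ≤ 1 / 4)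
    (e : ℝ) (he : 0 < e) (he1 : e ≤ 1 / 100) (m : ℕ) (hm : 1 ≤ m) :
    ∃ (s : ℕ) (a : ℝ) (w : ℕ) (Good : ℝ → Prop), 1 ≤ s ∧ 0 < a ∧ a ≤ 1 / 20 ∧
      (∃ᶠ x : ℝ in atTop, Good x) ∧ ∀ R : ℕ, 0 < R → primorial w ∣ R →
      ∃ c : ℝ, 0 < c ∧ ∀ᶠ x : ℝ in atTop, Good x → ∀ L : ℕ, 1 ≤ L → (L : ℝ) ≤ Real.log x →
        ∀ v ∈ IJ (Fin m × Fin s) L, (∀ i, Nat.Coprime (v i) R) →
          c * x / Real.log x ^ (m * s) ≤
            ∑ N ∈ (Tx x).filter (fun N : ℕ => R ∣ N ∧ (∀ l, nd (α l * N) < d) ∧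
              (∀ i, Rgh (x ^ a) (N + v i)) ∧ (13 / 50 - 2 * e) * m ≤ (pc v N : ℝ)), gw x N := by
  -- the parameters
  obtain ⟨Kc, hKc⟩ : ∃ Kc : ℝ, Kc = 1 - Real.cos (2 * Real.pi * d) := ⟨_, rfl⟩
  have hKc0 : 0 < Kc := by
    rw [hKc]
    exact one_sub_cos_pos hd (by linarith)
  obtain ⟨n, hn⟩ := exists_nat_ge (4 * (t : ℝ) / (e * Kc) + 1)
  have ht0 : (0 : ℝ) ≤ t := Nat.cast_nonneg t
  have hn0 : (1 : ℝ) ≤ n := by
    have : 0 ≤ 4 * (t : ℝ) / (e * Kc) := by positivity
    linarith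
  have hn1 : 1 ≤ n := by exact_mod_cast hn0
  obtain ⟨δ, hδ⟩ : ∃ δ : ℝ, δ = t / (n * Kc) := ⟨_, rfl⟩
  have hδ0 : 0 ≤ δ := by rw [hδ]; positivity
  have hδe : δ ≤ e / 4 := by
    rw [hδ, div_le_iff₀ (by positivity)]
    have h1 : 4 * (t : ℝ) / (e * Kc) ≤ n := by linarith
    rw [div_le_iff₀ (by positivity)] at h1
    nlinarith
  obtain ⟨C0, hC0⟩ : ∃ C0 : ℝ, C0 = (n : ℝ) ^ t * (1 + 2 * t / Kc) := ⟨_, rfl⟩
  have hC01 : 1 ≤ C0 := by
    rw [hC0]
    have h1 : (1 : ℝ) ≤ (n : ℝ) ^ t := one_le_pow₀ hn0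
    have h2 : 0 ≤ 2 * (t : ℝ) / Kc := by positivity
    nlinarith
  obtain ⟨τ, hτ, hτ1, hfr⟩ := hsc n
  obtain ⟨η1, hη1, H1⟩ := med_rot m hm (e / 4) C0 (by positivity) hC01
  obtain ⟨η2, hη2, H2⟩ := rotd t α n hn1 d hd (by linarith) τ hτ hτ1
  obtain ⟨η, hη⟩ : ∃ η : ℝ, η = min η1 η2 := ⟨_, rfl⟩
  have hη0 : 0 < η := by rw [hη]; exact lt_min hη1 hη2
  obtain ⟨s, a, C2, hs, ha, ha1, hC2, H3⟩ := H1 η hη0 (by rw [hη]; exact min_le_left _ _)
  have hcard : Fintype.card (Fin m × Fin s) = m * s := by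
    rw [Fintype.card_prod, Fintype.card_fin, Fintype.card_fin]
  have : Nonempty (Fin m × Fin s) := ⟨(⟨0, by omega⟩, ⟨0, by omega⟩)⟩
  obtain ⟨A', hA'⟩ : ∃ A' : ℝ, A' = (Fintype.card (Fin m × Fin s) : ℝ) ^ 2 + 1 := ⟨_, rfl⟩
  have hA'1 : 1 ≤ A' := by
    rw [hA']
    have : (0 : ℝ) ≤ (Fintype.card (Fin m × Fin s) : ℝ) ^ 2 := by positivity
    linarith
  have hRD := H2 η hη0 (by rw [hη]; exact min_le_right _ _) A'
  rw [← hKc, ← hC0, ← hδ] at hRD
  obtain ⟨w0, hw0⟩ := H3 A'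
  obtain ⟨w, hw⟩ : ∃ w : ℕ, w = max w0 (m * s) := ⟨_, rfl⟩
  have hw0w : w0 ≤ w := by rw [hw]; exact le_max_left _ _
  have hKw : m * s ≤ w := by rw [hw]; exact le_max_right _ _
  refine ⟨s, a, w, GoodSc τ n α, hs, ha, ha1, hfr, ?_⟩
  intro R hR hRw
  obtain ⟨c, hc, hnms⟩ := nr_sum (Fin m × Fin s) a ha (by linarith) R w hR (by rw [hcard]; exact hKw)
    hRw
  refine ⟨e / C2 * c, by positivity, ?_⟩
  have hRlog := Real.tendsto_log_atTop.eventually_ge_atTop (R : ℝ)
  filter_upwards [hw0 w hw0w (Rf τ n α) (Sf τ n α d) δ hδ0 (by linarith) hRD,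
    nmu_pos (m * s) w hKw a, hnms A', hRlog,
    Real.tendsto_log_atTop.eventually_ge_atTop (1 : ℝ)] with x hx1 hx3 hx4 hxR hxl hgs L hL hLx v hv
      hcop
  have hl0 : 0 < Real.log x := by linarith
  have hvinj : Function.Injective v := (mem_IJ.1 hv).2
  have hvL := (mem_IJ.1 hv).1
  have hD : dd v ≠ 0 := dd_ne hvinj
  obtain ⟨W, hW⟩ : ∃ W, W = WR R (dd v) := ⟨_, rfl⟩
  have hWpos : 0 < W := by rw [hW]; exact wr_pos hR _
  have hWpr : primorial w ∣ W := by rw [hW]; exact hRw.trans (wr_dvd_R _ _)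
  have hWle : (W : ℝ) ≤ Real.log x ^ A' := by
    have h1 : (W : ℝ) ≤ R * (dd v : ℕ) := by
      rw [hW]
      exact_mod_cast wr_le hD
    have h2 : ((dd v : ℕ) : ℝ) ≤ (L : ℝ) ^ (Fintype.card (Fin m × Fin s) ^ 2) := by
      exact_mod_cast dd_le hL hvL
    have h3 : (L : ℝ) ^ (Fintype.card (Fin m × Fin s) ^ 2) ≤
        Real.log x ^ (Fintype.card (Fin m × Fin s) ^ 2) :=
      pow_le_pow_left₀ (Nat.cast_nonneg _) hLx _
    rw [hA', Real.rpow_add hl0, Real.rpow_one, mul_comm]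
    have h4 : Real.log x ^ ((Fintype.card (Fin m × Fin s) : ℝ) ^ 2) =
        Real.log x ^ (Fintype.card (Fin m × Fin s) ^ 2) := by
      have h5 := Real.rpow_natCast (Real.log x) (Fintype.card (Fin m × Fin s) ^ 2)
      rw [Nat.cast_pow] at h5
      exact h5
    rw [h4]
    refine h1.trans (mul_le_mul hxR (h2.trans h3) (Nat.cast_nonneg _) hl0.le)
  have hsum := hx4 (dd v) (by rw [← hW]; exact hWle) v hcop
  rw [hcard, ← hW] at hsum
  have hnm : 0 < nm x a W (m * s) := hx3 W hWpos hWpr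
  have hone : ∀ b ∈ GR R (dd v) v, e / C2 * nm x a W (m * s) ≤
      ∑ N ∈ (Tx x).filter (fun N : ℕ => (∀ l, nd (α l * N) < d) ∧ (∀ i, Rgh (x ^ a) (N + v i)) ∧
              (13 / 50 - 2 * e) * m ≤ (pc v N : ℝ)), if N % W = b then gw x N else 0 := by
    intro b hb
    rw [mem_GR, ← hW] at hb
    obtain ⟨hbW, hbR, hbc⟩ := hb
    obtain ⟨-, μ, h0, h1, h2, h3, h4, h5⟩ := hx1
      (fun j => univ.image (fun l : Fin s => v (j, l))) W b
      (by
        refine ⟨?_, ?_, ?_, hWpos, hWpr, hWle, ?_, ?_⟩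
        · intro i j hij
          rw [disjoint_left]
          intro y hy hy'
          rw [mem_image] at hy hy'
          obtain ⟨l, _, hl⟩ := hy
          obtain ⟨l', _, hl'⟩ := hy'
          have := hvinj (hl.trans hl'.symm)
          exact hij (Prod.ext_iff.1 this).1
        · intro j
          rw [card_image_of_injective, card_univ, Fintype.card_fin]
          intro l l' hll
          exact (Prod.ext_iff.1 (hvinj hll)).2
        · intro j y hy
          obtain ⟨l, -, rfl⟩ := mem_image.1 hy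
          have h5 : ((v (j, l) : ℕ) : ℝ) ≤ L := by exact_mod_cast hvL _
          refine (h5.trans hLx).trans ?_
          calc Real.log x = Real.log x ^ (1 : ℝ) := (Real.rpow_one _).symm
            _ ≤ Real.log x ^ A' := Real.rpow_le_rpow_of_exponent_le hxl hA'1
        · intro j j' y hy z hz hyz p hp hpd
          obtain ⟨l, -, rfl⟩ := mem_image.1 hy
          obtain ⟨l', -, rfl⟩ := mem_image.1 hz
          have hij : (j, l) ≠ (j', l') := by
            intro h
            exact hyz (congrArg v h)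
          rw [hW]
          apply wr_dvd hD hp
          refine dvd_trans ?_ (dvd_dd v hij)
          exact Int.natCast_dvd.1 hpd
        · intro j y hy
          obtain ⟨l, -, rfl⟩ := mem_image.1 hy
          exact hbc _)
    have hres := ob_rot (a := a) hm he he1 hC2 hnm v (b := b) (fun N => if N ∈ Tx x then μ N else 0)
      (Sf τ n α d x) (fun N : ℕ => ∀ l, nd (α l * N) < d)
      (fun N => by
        split_ifs
        · exact h0 N
        · exact le_rfl)
      (by
        intro N hN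
        have hT : N ∈ Tx x := by
          by_contra hno
          exact hN (if_neg hno)
        rw [if_pos hT] at hN
        obtain ⟨h5, h6⟩ := h2 N hT hN
        refine ⟨h5, fun i p hp hpN => h6 i.1 (v i) ?_ p hp hpN⟩
        exact mem_image_of_mem (fun l => v (i.1, l)) (mem_univ i.2))
      (by
        intro N
        split_ifs with hT
        · exact h1 N hT
        · have := (gw_pos x N).le
          positivity)
      (by
        rw [← h3]
        exact sum_congr rfl fun N hN => if_pos hN)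
      (by
        intro j
        refine (h4 j).trans (le_of_eq ?_)
        refine sum_congr ?_ ?_
        · ext N
          simp only [mem_filter, mem_image, mem_univ, true_and, exists_exists_eq_and]
        · intro N hN
          exact (if_pos (mem_filter.1 hN).1).symm)
      (fun N => (hRD.bS x N).1)
      (by
        intro N hno
        push Not at hno
        obtain ⟨l, hl⟩ := hno
        exact sf_ge τ n α d x hd (by linarith) hgs N l hl)
      (by
        refine le_trans (le_of_eq ?_) (h5.trans (by linarith))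
        exact sum_congr rfl fun N hN => by rw [if_pos hN])
    rw [Nat.mod_eq_of_lt hbW] at hres
    convert hres
  calc e / C2 * c * x / Real.log x ^ (m * s) = e / C2 * (c * x / Real.log x ^ (m * s)) := by ring
    _ ≤ e / C2 * ∑ _b ∈ GR R (dd v) v, nm x a W (m * s) := by
        refine mul_le_mul_of_nonneg_left hsum (by positivity)
    _ = ∑ _b ∈ GR R (dd v) v, e / C2 * nm x a W (m * s) := by rw [mul_sum]
    _ ≤ ∑ b ∈ GR R (dd v) v, ∑ N ∈ (Tx x).filter (fun N : ℕ => (∀ l, nd (α l * N) < d) ∧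
              (∀ i, Rgh (x ^ a) (N + v i)) ∧
              (13 / 50 - 2 * e) * m ≤ (pc v N : ℝ)), (if N % W = b then gw x N else 0) :=
        sum_le_sum hone
    _ ≤ _ := by
        rw [sum_comm]
        rw [sum_filter, sum_filter]
        refine sum_le_sum fun N _ => ?_
        by_cases hN : (∀ l, nd (α l * N) < d) ∧ (∀ i, Rgh (x ^ a) (N + v i)) ∧
            (13 / 50 - 2 * e) * m ≤ (pc v N : ℝ)
        · rw [if_pos hN, sum_ite_eq]
          by_cases hb : N % W ∈ GR R (dd v) v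
          · rw [if_pos hb]
            rw [mem_GR, ← hW] at hb
            have hRN : R ∣ N := by
              have h1 : R ∣ W := by rw [hW]; exact wr_dvd_R _ _
              exact (Nat.dvd_mod_iff h1).1 hb.2.1
            rw [if_pos ⟨hRN, hN⟩]
          · rw [if_neg hb]
            split_ifs
            · exact (gw_pos x N).le
            · exact le_rfl
        · rw [if_neg hN, if_neg (fun h => hN h.2)]

end Pool.Agent.H96.RO
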